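import Pool.Agent.Helper249.RC.Cover
import Pool.Agent.Helper249.RC.Support

/-!
MP_5a7e2f_gt, Q1 in the case of Rosenthal compacta: if a compact space `S` embeds in the space
`B_1(X)` of functions of the first Baire class on a Polish space `X` (pointwise topology), then
every regular Borel probability measure on `S` has metrizable-like support.
-/

set_option autoImplicit false
open MeasureTheory Set Filter Topology
open Pool.Agent.Helper249.RC

namespace Pool.Agent.Results.MP_5a7e2f_gt.RosenthalCase

/-- `S` is a Rosenthal compactum: it is homeomorphic to a (compact) subspace of `B_1(X)`, the space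
of real functions of the first Baire class on a Polish space `X`, with the topology of pointwise
convergence. (For compact `S` a continuous injection into the Hausdorff space `X → ℝ` is an
embedding.) -/
def IsRosenthalCompactum (S : Type) [TopologicalSpace S] : Prop :=
  CompactSpace S ∧ ∃ (X : Type) (_ : TopologicalSpace X) (_ : PolishSpace X) (e : S → X → ℝ),
    IsEmbedding e ∧ ∀ s, ∃ g : ℕ → X → ℝ, (∀ n, Continuous (g n)) ∧
      ∀ x, Tendsto (fun n => g n x) atTop (𝓝 (e s x))

/-- Every regular Borel probability measure on a Rosenthal compactum has metrizable-like support. -/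
theorem result :
    ∀ (S : Type) [TopologicalSpace S] [CompactSpace S] [T2Space S] [MeasurableSpace S]
      [BorelSpace S], IsRosenthalCompactum S →
    ∀ μ : Measure S, IsProbabilityMeasure μ → μ.Regular →
      ∃ A : ℕ → Finset (Set S),
        (∀ i, ∀ K ∈ A i, IsCompact K) ∧
        (∀ i, ((A i : Set (Set S))).PairwiseDisjoint id) ∧
        ∀ U : Set (Set S), (∀ u ∈ U, IsOpen u) → ⋃₀ U = univ →
          ∀ ε : ENNReal, 0 < ε →
            ∃ i, (∀ K ∈ A i, ∃ u ∈ U, K ⊆ u) ∧ μ (univ \ ⋃₀ ((A i : Set (Set S)))) < ε := by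
  intro S _ _ _ _ _ hS μ hμ hreg
  obtain ⟨-, X, tX, pX, e, he, hB⟩ := hS
  haveI : IsProbabilityMeasure μ := hμ
  haveI : μ.Regular := hreg
  have hpi := Real.pi_pos
  let F : X → S → ℝ := fun x f => 1 / 2 + Real.arctan (e f x) / Real.pi
  have hc : ∀ z, Continuous (F z) := by
    intro z
    have h1 : Continuous (fun f : S => e f z) := (continuous_apply z).comp he.continuous
    exact continuous_const.add ((Real.continuous_arctan.comp h1).div_const _)
  have hb : ∀ z f, F z f ∈ Icc (0 : ℝ) 1 := by
    intro z f
    have h1 := Real.arctan_lt_pi_div_two (e f z)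
    have h2 := Real.neg_pi_div_two_lt_arctan (e f z)
    have h3 : -(1 / 2) ≤ Real.arctan (e f z) / Real.pi := by
      rw [le_div_iff₀ hpi]; linarith
    have h4 : Real.arctan (e f z) / Real.pi ≤ 1 / 2 := by
      rw [div_le_iff₀ hpi]; linarith
    exact ⟨by simp only [F]; linarith, by simp only [F]; linarith⟩
  have hsep : ∀ f g, (∀ x, F x f = F x g) → f = g := by
    intro f g h
    apply he.injective
    funext x
    have h1 := h x
    simp only [F] at h1
    have h2 : Real.arctan (e f x) / Real.pi = Real.arctan (e g x) / Real.pi := by linarith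
    rw [div_left_inj' hpi.ne'] at h2
    exact Real.arctan_injective h2
  have hF : Frag F := by
    refine frag_baireOne F fun f => ?_
    obtain ⟨g, hg1, hg2⟩ := hB f
    refine ⟨fun n x => 1 / 2 + Real.arctan (g n x) / Real.pi, fun n => ?_, fun x => ?_⟩
    · exact continuous_const.add ((Real.continuous_arctan.comp (hg1 n)).div_const _)
    · exact (((Real.continuous_arctan.tendsto _).comp (hg2 x)).div_const _).const_add _
  obtain ⟨A, hA1, hA2, hA3, hA4⟩ :=
    support μ F hc hb hsep fun η hη => cover μ F hc hb hF η hη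
  refine ⟨fun i => (hA1 i).toFinset, ?_, ?_, ?_⟩
  · intro i K hK
    exact hA2 i K ((hA1 i).mem_toFinset.1 hK)
  · intro i
    rw [(hA1 i).coe_toFinset]
    exact hA3 i
  · intro U hU hUc ε hε
    by_cases htop : ε = ⊤
    · obtain ⟨i, h1, h2⟩ := hA4 U hU hUc 1 one_pos
      refine ⟨i, fun K hK => h1 K ((hA1 i).mem_toFinset.1 hK), ?_⟩
      rw [htop]
      exact measure_lt_top _ _
    · have h0 : 0 < ε.toReal := ENNReal.toReal_pos hε.ne' htop
      obtain ⟨i, h1, h2⟩ := hA4 U hU hUc ε.toReal h0
      refine ⟨i, fun K hK => h1 K ((hA1 i).mem_toFinset.1 hK), ?_⟩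
      rw [(hA1 i).coe_toFinset, ← compl_eq_univ_sdiff]
      rwa [ENNReal.ofReal_toReal htop] at h2

end Pool.Agent.Results.MP_5a7e2f_gt.RosenthalCase
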